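import Pool.Agent.Helper86.TH.Stmts

/-! # Project TH, row HT -/

namespace TH66

open TH MvPolynomial Finset

noncomputable section

set_option linter.unusedSectionVars false

theorem le_card (ν : Par) (i : ℕ) : ν.1 i ≤ card ν := by
  by_cases h : i < card ν
  · have h1 := card_range ν (card ν) (fun j hj => ν.zero_of_card_le hj)
    calc ν.1 i ≤ ∑ i ∈ range (card ν), ν.1 i :=
          Finset.single_le_sum (f := fun i => ν.1 i) (fun j _ => Nat.zero_le _) (mem_range.mpr h)
      _ = card ν := h1.symm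
  · rw [ν.zero_of_card_le (by omega)]
    exact Nat.zero_le _

/-- finitely many partitions of `n` -/
theorem finite_card (n : ℕ) : {ν : Par | card ν = n}.Finite := by
  have ht : {g : Fin n → ℕ | ∀ i, g i ∈ Set.Iic n}.Finite :=
    Set.Finite.pi' fun _ => Set.finite_Iic n
  refine Set.Finite.of_injOn (f := fun ν : Par => fun i : Fin n => ν.1 i) ?_ ?_ ht
  · intro ν hν i
    have hν' : card ν = n := hν
    exact (le_card ν i).trans (le_of_eq hν')
  · intro ν hν κ hκ h
    change card ν = n at hν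
    change card κ = n at hκ
    apply Subtype.ext
    ext i
    by_cases hi : i < n
    · exact congrFun h ⟨i, hi⟩
    · rw [ν.zero_of_card_le (by omega), κ.zero_of_card_le (by omega)]

/-- a statistic which is strictly monotone for the dominance order -/
def mm (n : ℕ) (ν : Par) : ℕ := ∑ k ∈ range (n + 1), ∑ i ∈ range k, ν.1 i

theorem mm_le (n : ℕ) (ν : Par) (h : card ν = n) : mm n ν ≤ (n + 1) * n := by
  have : ∀ k ∈ range (n + 1), ∑ i ∈ range k, ν.1 i ≤ n := by
    intro k hk
    rw [mem_range] at hk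
    rw [← h, card_range ν n (fun j hj => ν.zero_of_card_le (by omega))]
    exact Finset.sum_le_sum_of_subset (by
      intro i hi; rw [mem_range] at hi ⊢; omega)
  calc mm n ν ≤ ∑ k ∈ range (n + 1), n := Finset.sum_le_sum this
    _ = (n + 1) * n := by simp

theorem mm_lt (n : ℕ) (ν κ : Par) (hν : card ν = n) (hκ : card κ = n) (hd : Dom ν.1 κ.1)
    (hne : κ ≠ ν) : mm n ν < mm n κ := by
  have h1 : mm n ν ≤ mm n κ := Finset.sum_le_sum fun k _ => hd k
  refine lt_of_le_of_ne h1 fun h2 => hne ?_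
  have h3 := (Finset.sum_eq_sum_iff_of_le fun k _ => hd k).mp h2
  apply Subtype.ext
  ext i
  by_cases hi : i < n
  · have e1 := h3 i (by rw [mem_range]; omega)
    have e2 := h3 (i + 1) (by rw [mem_range]; omega)
    rw [Finset.sum_range_succ, Finset.sum_range_succ] at e2
    omega
  · rw [ν.zero_of_card_le (by omega), κ.zero_of_card_le (by omega)]

variable {K : Type*} [Field K] [CharZero K]

theorem schur_eq (N : ℕ) (lam : ℕ → ℕ) : schur K N lam =
    ∑ σ : Equiv.Perm (Fin N), ((Equiv.Perm.sign σ : ℤ) : K) •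
      hp K N (fun i => (lam i : ℤ) - (i : ℤ) + (σ i : ℤ)) := by
  rw [schur, ← Matrix.det_transpose, Matrix.det_apply]
  refine Finset.sum_congr rfl fun σ _ => ?_
  rw [hp]
  simp only [Matrix.transpose_apply, Matrix.of_apply]
  rw [Units.smul_def, Int.cast_smul_eq_zsmul]

/-- the diagonal coefficient -/
theorem coef_one {q t : K} (ν : Par) (n : ℕ) (h : card ν = n) :
    t ^ n + (1 - t) * ∑ i : Fin n,
        t ^ (((1 : Equiv.Perm (Fin n)) i : ℕ)) *
          q ^ ((ν.1 i : ℤ) - (i : ℤ) + ((1 : Equiv.Perm (Fin n)) i : ℤ))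
      = 1 - Mj q t 0 * Ps q t ν 0 := by
  rw [one_sub_Mj_Ps q t ν 0 n (fun i hi => ν.zero_of_card_le (by omega))]
  rw [← Fin.sum_univ_eq_sum_range (fun i => zc q t ν i ^ (0 + 1)) n]
  simp only [zero_add, pow_one]
  congr 2
  refine Finset.sum_congr rfl fun i _ => ?_
  rw [zc, Equiv.Perm.one_apply]
  congr 1
  have : (ν.1 i : ℤ) - (i : ℤ) + ((i : ℕ) : ℤ) = ((ν.1 i : ℕ) : ℤ) := by ring
  rw [this, zpow_natCast]

/-- intertwining of polynomials in operators -/
theorem aeval_intertwine {V W : Type*} [AddCommGroup V] [Module K V] [AddCommGroup W] [Module K W]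
    (D : Module.End K V) (A : Module.End K W) (φ : V →ₗ[K] W) (h : ∀ F, φ (D F) = A (φ F))
    (P : Polynomial K) (F : V) : φ (Polynomial.aeval D P F) = Polynomial.aeval A P (φ F) := by
  induction P using Polynomial.induction_on' with
  | add p r hp hr => simp only [map_add, LinearMap.add_apply, hp, hr]
  | monomial n a =>
    rw [Polynomial.aeval_monomial, Polynomial.aeval_monomial]
    simp only [Module.algebraMap_end_eq_smul_id, Module.End.mul_apply, LinearMap.smul_apply,
      LinearMap.id_apply, map_smul]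
    congr 1
    clear a
    induction n with
    | zero => simp
    | succ n ih =>
      rw [pow_succ', pow_succ', Module.End.mul_apply, Module.End.mul_apply, h, ih]

theorem one_sub_pow_ne {q t : K} (h : Gn q t) (j : ℕ) : 1 - q ^ (j + 1) ≠ 0 := by
  intro h1
  have h2 : q ^ (j + 1) = 1 := (sub_eq_zero.mp h1).symm
  have := (h.ind (j + 1) 0 (by
    rw [zpow_zero, mul_one]
    exact_mod_cast h2)).1
  omega

theorem plq_inj {q t : K} (h : Gn q t) : Function.Injective (plq q : Sy K →ₐ[K] Sy K) := by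
  have h1 : ((aeval (fun j => C ((1 - q ^ (j + 1))⁻¹) * X j) : Sy K →ₐ[K] Sy K).comp (plq q)) =
      AlgHom.id K (Sy K) := by
    apply MvPolynomial.algHom_ext
    intro j
    rw [AlgHom.comp_apply, plq, aeval_X, map_mul, aeval_X, ← MvPolynomial.algebraMap_eq,
      AlgHom.commutes, AlgHom.id_apply, ← mul_assoc, ← map_mul,
      mul_inv_cancel₀ (one_sub_pow_ne h j), map_one, one_mul]
  intro F G hFG
  have := congrArg (aeval (fun j => C ((1 - q ^ (j + 1))⁻¹) * X j) : Sy K →ₐ[K] Sy K) hFG
  rw [← AlgHom.comp_apply, ← AlgHom.comp_apply, h1] at this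
  exact this

/-- the eigenvalue -/
def cc (q t : K) (ν : Par) : K := 1 - Mj q t 0 * Ps q t ν 0

/-- the product over a set of partitions -/
def PP (q t : K) (S : Finset Par) : Polynomial K :=
  ∏ ν ∈ S, (Polynomial.X - Polynomial.C (cc q t ν))

theorem PP_dvd (q t : K) {S T : Finset Par} (h : S ⊆ T) : PP q t S ∣ PP q t T :=
  Finset.prod_dvd_prod_of_subset _ _ _ h

theorem kill_of_dvd {V : Type*} [AddCommGroup V] [Module K V] (A : Module.End K V)
    {P Q : Polynomial K} (h : P ∣ Q) {v : V} (hv : Polynomial.aeval A P v = 0) :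
    Polynomial.aeval A Q v = 0 := by
  obtain ⟨R, rfl⟩ := h
  rw [mul_comm, map_mul, Module.End.mul_apply, hv, map_zero]

theorem Dom_trans {f g h : ℕ → ℕ} (h1 : Dom f g) (h2 : Dom g h) : Dom f h :=
  fun k => (h1 k).trans (h2 k)

/-- triangularity of `Aop` -/
theorem tri (hHS : ST_HS K) (hHH : ST_HH K) {q t : K} (hG : Gn q t) (n : ℕ) (ν : Par)
    (hν : card ν = n) :
    Aop q t (schur K n ν.1) - cc q t ν • schur K n ν.1 ∈ Submodule.span K
      {s | ∃ κ : Par, card κ = n ∧ Dom ν.1 κ.1 ∧ κ ≠ ν ∧ s = schur K n κ.1} := by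
  rw [hHS q t n ν.1 hG.q0, schur_eq, Finset.smul_sum, ← Finset.sum_sub_distrib]
  refine Submodule.sum_mem _ fun σ _ => ?_
  rw [smul_smul, ← sub_smul]
  by_cases h : σ = 1
  · subst h
    have h1 := coef_one (q := q) (t := t) ν n hν
    rw [h1, cc]
    have : (((Equiv.Perm.sign (1 : Equiv.Perm (Fin n)) : ℤ) : K) * (1 - Mj q t 0 * Ps q t ν 0) -
        (1 - Mj q t 0 * Ps q t ν 0) * ((Equiv.Perm.sign (1 : Equiv.Perm (Fin n)) : ℤ) : K)) = 0 := by
      ring
    rw [this, zero_smul]
    exact Submodule.zero_mem _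
  · refine Submodule.smul_mem _ _ ?_
    obtain ⟨S, hS, hm⟩ := hHH n ν hν σ h
    refine Submodule.span_mono ?_ hm
    rintro s ⟨κ, hκ, rfl⟩
    obtain ⟨h1, h2, h3⟩ := hS κ hκ
    exact ⟨κ, h1, h2, h3, rfl⟩

theorem st_HT (K : Type*) [Field K] [CharZero K] (hHA : ST_HA K) (hHS : ST_HS K)
    (hHH : ST_HH K) : ST_HT K := by
  classical
  intro q t hG n f
  set S : Finset Par := (finite_card n).toFinset.filter (fun ν => Dom f ν.1) with hS
  have hmem : ∀ ν, ν ∈ S ↔ card ν = n ∧ Dom f ν.1 := by
    intro ν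
    rw [hS, Finset.mem_filter, Set.Finite.mem_toFinset]
    rfl
  refine ⟨S, fun ν hν => (hmem ν).mp hν, fun F hF => ?_⟩
  -- downward induction
  have key : ∀ d k : ℕ, (n + 1) * n + 1 ≤ k + d → ∀ ν ∈ S, k ≤ mm n ν →
      Polynomial.aeval (Aop q t) (PP q t (S.filter fun κ => k ≤ mm n κ)) (schur K n ν.1) = 0 := by
    intro d
    induction d with
    | zero =>
      intro k hk ν hν hkν
      have := mm_le n ν ((hmem ν).mp hν).1
      omega
    | succ d ih =>
      intro k hk ν hν hkν
      rcases Nat.lt_or_ge k (mm n ν) with h | h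
      · refine kill_of_dvd _ (PP_dvd q t ?_) (ih (k + 1) (by omega) ν hν h)
        intro κ hκ
        rw [Finset.mem_filter] at hκ ⊢
        exact ⟨hκ.1, by omega⟩
      · have hνU : ν ∈ S.filter fun κ => k ≤ mm n κ := by
          rw [Finset.mem_filter]; exact ⟨hν, hkν⟩
        have hP : PP q t (S.filter fun κ => k ≤ mm n κ) =
            PP q t ((S.filter fun κ => k ≤ mm n κ).erase ν) *
              (Polynomial.X - Polynomial.C (cc q t ν)) := by
          rw [PP, PP, Finset.prod_erase_mul _ _ hνU]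
        rw [hP, map_mul, Module.End.mul_apply]
        have h2 : Polynomial.aeval (Aop q t) (Polynomial.X - Polynomial.C (cc q t ν))
            (schur K n ν.1) = Aop q t (schur K n ν.1) - cc q t ν • schur K n ν.1 := by
          rw [map_sub, Polynomial.aeval_X, Polynomial.aeval_C, LinearMap.sub_apply,
            Module.algebraMap_end_apply]
        rw [h2]
        have h3 := tri hHS hHH hG n ν ((hmem ν).mp hν).1
        refine Submodule.span_induction (p := fun s _ => Polynomial.aeval (Aop q t)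
          (PP q t ((S.filter fun κ => k ≤ mm n κ).erase ν)) s = 0) ?_ ?_ ?_ ?_ h3
        · rintro s ⟨κ, hκ1, hκ2, hκ3, rfl⟩
          have hlt := mm_lt n ν κ ((hmem ν).mp hν).1 hκ1 hκ2 hκ3
          refine kill_of_dvd _ (PP_dvd q t ?_) (ih (k + 1) (by omega) κ
            ((hmem κ).mpr ⟨hκ1, Dom_trans ((hmem ν).mp hν).2 hκ2⟩) (by omega))
          intro ρ hρ
          rw [Finset.mem_filter] at hρ
          rw [Finset.mem_erase, Finset.mem_filter]
          refine ⟨?_, hρ.1, by omega⟩
          rintro rfl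
          have := hρ.2
          omega
        · exact map_zero _
        · intro x y _ _ hx hy
          rw [map_add, hx, hy, add_zero]
        · intro a x _ hx
          rw [map_smul, hx, smul_zero]
  apply plq_inj hG
  rw [map_zero]
  have h4 := aeval_intertwine (Dk q t 0) (Aop q t) (plq q).toLinearMap (fun G => hHA q t G)
    (∏ ν ∈ S, (Polynomial.X - Polynomial.C (1 - Mj q t 0 * Ps q t ν 0))) F
  rw [AlgHom.toLinearMap_apply, AlgHom.toLinearMap_apply] at h4
  rw [h4]
  refine Submodule.span_induction (p := fun s _ => Polynomial.aeval (Aop q t)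
    (∏ ν ∈ S, (Polynomial.X - Polynomial.C (1 - Mj q t 0 * Ps q t ν 0))) s = 0) ?_ ?_ ?_ ?_ hF
  · rintro s ⟨κ, hκ1, hκ2, rfl⟩
    have h5 := key ((n + 1) * n + 1) 0 (by omega) κ ((hmem κ).mpr ⟨hκ1, hκ2⟩) (Nat.zero_le _)
    refine kill_of_dvd _ ?_ h5
    exact PP_dvd q t (Finset.filter_subset _ _)
  · exact map_zero _
  · intro x y _ _ hx hy
    rw [map_add, hx, hy, add_zero]
  · intro a x _ hx
    rw [map_smul, hx, smul_zero]

end

end TH66
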