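import Pool.Agent.Helper86.TH.Stmts

/-! # Project TH, row VR -/

namespace TH66

open TH MvPolynomial Finset

noncomputable section

/-- splitting off the first entry of a composition -/
theorem sum_piAntidiag_succ {M : Type*} [AddCommMonoid M] (m y : ℕ) (f : (Fin (m + 1) → ℕ) → M) :
    ∑ j ∈ piAntidiag (univ : Finset (Fin (m + 1))) y, f j =
      ∑ a ∈ range (y + 1), ∑ j ∈ piAntidiag (univ : Finset (Fin m)) (y - a), f (Fin.cons a j) := by
  rw [Finset.sum_sigma']
  refine Finset.sum_bij' (fun j _ => ⟨j 0, fun i => j i.succ⟩) (fun p _ => Fin.cons p.1 p.2)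
    ?_ ?_ ?_ ?_ ?_
  · intro j hj
    rw [mem_piAntidiag, Fin.sum_univ_succ] at hj
    rw [Finset.mem_sigma, mem_range, mem_piAntidiag]
    refine ⟨by dsimp only; omega, by dsimp only; omega, fun i _ => mem_univ i⟩
  · intro p hp
    rw [Finset.mem_sigma, mem_range, mem_piAntidiag] at hp
    rw [mem_piAntidiag, Fin.sum_univ_succ]
    refine ⟨?_, fun i _ => mem_univ i⟩
    simp only [Fin.cons_zero, Fin.cons_succ]
    have h1 : ∑ x, p.snd x = y - p.fst := hp.2.1
    have h2 := hp.1
    rw [h1]
    omega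
  · intro j _
    exact Fin.cons_self_tail j
  · intro p _
    simp
  · intro j _
    dsimp only
    congr 1
    exact (Fin.cons_self_tail j).symm

/-- exchange of the order of summation over a triangle -/
theorem sum_triangle {M : Type*} [AddCommMonoid M] (a : ℕ) (h : ℕ → ℕ → M) :
    ∑ y ∈ range (a + 1), ∑ b ∈ range (y + 1), h b (y - b) =
      ∑ b ∈ range (a + 1), ∑ y ∈ range (a - b + 1), h b y := by
  rw [Finset.sum_sigma', Finset.sum_sigma']
  refine Finset.sum_bij' (fun p _ => ⟨p.2, p.1 - p.2⟩) (fun p _ => ⟨p.1 + p.2, p.1⟩) ?_ ?_ ?_ ?_ ?_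
  · intro p hp
    rw [Finset.mem_sigma, mem_range, mem_range] at hp ⊢
    dsimp only
    omega
  · intro p hp
    rw [Finset.mem_sigma, mem_range, mem_range] at hp ⊢
    dsimp only
    omega
  · rintro ⟨y, b⟩ hp
    rw [Finset.mem_sigma, mem_range, mem_range] at hp
    dsimp only at hp ⊢
    have : b + (y - b) = y := by omega
    rw [this]
  · rintro ⟨y, b⟩ hp
    dsimp only
    have : y + b - y = b := by omega
    rw [this]
  · intro p _
    rfl

variable {K : Type*} [Field K] [CharZero K]

/-- the word of vertex operators -/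
def Wop (q t : K) (m : ℕ) (L : Fin m → ℤ) : Module.End K (Sy K) :=
  (((List.ofFn L).reverse.map (fun x => Dk q t x)).prod : Module.End K (Sy K))

theorem Wop_zero (q t : K) (L : Fin 0 → ℤ) : Wop q t 0 L = 1 := by
  simp [Wop]

theorem Wop_succ (q t : K) (m : ℕ) (L : Fin (m + 1) → ℤ) :
    Wop q t (m + 1) L = Wop q t m (fun i => L i.succ) * Dk q t (L 0) := by
  simp [Wop, List.ofFn_succ]

theorem Vm_eq (q t : K) (m : ℕ) (L : Fin m → ℤ) : Vm q t m L = Wop q t m L 1 := rfl

/-- moving `ehat_a` through a word -/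
theorem Wop_eh (hDE : ST_DE K) (q t : K) (m : ℕ) : ∀ (L : Fin m → ℤ) (a : ℕ),
    Wop q t m L * mu (eh K a) = ∑ y ∈ range (a + 1),
      ∑ j ∈ piAntidiag (univ : Finset (Fin m)) y, (∏ i, om q t (j i)) •
        (mu (eh K (a - y)) * Wop q t m (fun i => L i + (j i : ℤ))) := by
  induction m with
  | zero =>
    intro L a
    rw [Finset.sum_eq_single 0]
    · simp [Wop_zero]
    · intro y _ hy
      have : piAntidiag (univ : Finset (Fin 0)) y = ∅ := by
        rw [Finset.eq_empty_iff_forall_notMem]
        intro j hj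
        rw [mem_piAntidiag] at hj
        exact hy (by simpa using hj.1.symm)
      rw [this, Finset.sum_empty]
    · intro h
      exact absurd (mem_range.mpr (Nat.succ_pos a)) h
  | succ m ih =>
    intro L a
    rw [Wop_succ, mul_assoc, hDE, Finset.mul_sum]
    set g : ℕ → ℕ → Module.End K (Sy K) := fun (b y' : ℕ) =>
        ∑ j ∈ piAntidiag (univ : Finset (Fin m)) y',
          (om q t b * ∏ i, om q t (j i)) • (mu (eh K (a - (b + y'))) *
            (Wop q t m (fun i => L i.succ + (j i : ℤ)) * Dk q t (L 0 + b))) with hg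
    have h1 : ∀ y ∈ range (a + 1), ∑ j ∈ piAntidiag (univ : Finset (Fin (m + 1))) y,
        (∏ i, om q t (j i)) • (mu (eh K (a - y)) * Wop q t (m + 1) (fun i => L i + (j i : ℤ)))
        = ∑ b ∈ range (y + 1), g b (y - b) := by
      intro y _
      rw [sum_piAntidiag_succ]
      refine Finset.sum_congr rfl fun b hb => ?_
      rw [mem_range] at hb
      rw [hg]
      refine Finset.sum_congr rfl fun j _ => ?_
      rw [Fin.prod_univ_succ, Wop_succ]
      simp only [Fin.cons_zero, Fin.cons_succ]
      have e : b + (y - b) = y := by omega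
      rw [e]
    rw [Finset.sum_congr rfl h1, sum_triangle a g, hg]
    refine Finset.sum_congr rfl fun b hb => ?_
    rw [mem_range] at hb
    rw [mul_smul_comm, ← mul_assoc, ih, Finset.sum_mul, Finset.smul_sum]
    refine Finset.sum_congr rfl fun y _ => ?_
    rw [Finset.sum_mul, Finset.smul_sum]
    refine Finset.sum_congr rfl fun j _ => ?_
    rw [smul_mul_assoc, smul_smul, mul_assoc]
    have e : a - b - y = a - (b + y) := by omega
    rw [e]

theorem Dk_one (q t : K) (k : ℤ) : Dk q t k 1 = ehz K k := by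
  rw [Dk_apply q t k 1 1 (by simp)]
  simp [tau_one]

theorem st_VR (K : Type*) [Field K] [CharZero K] (hDE : ST_DE K) : ST_VR K := by
  intro q t m L
  rw [Vm_eq, Wop_succ, Module.End.mul_apply, Dk_one]
  split_ifs with h
  · obtain ⟨a, ha⟩ := Int.eq_ofNat_of_zero_le h
    rw [ha, ehz_natCast, Int.toNat_natCast]
    have h1 := LinearMap.congr_fun (Wop_eh hDE q t m (fun i => L i.succ) a) 1
    rw [Module.End.mul_apply, mu_apply, mul_one] at h1
    rw [h1, LinearMap.sum_apply]
    refine Finset.sum_congr rfl fun y _ => ?_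
    rw [LinearMap.sum_apply]
    refine Finset.sum_congr rfl fun j _ => ?_
    rw [LinearMap.smul_apply, Module.End.mul_apply, mu_apply]
    rfl
  · rw [ehz_neg _ (by omega), map_zero]

end

end TH66
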